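import Pool.Agent.U226.AB.Nil

/-!
# Rigid abelian tensor categories: the unit is simple, and traces are additive
-/

namespace U226.AB

open CategoryTheory MonoidalCategory BraidedCategory ExactPairing CategoryTheory.Limits

universe v u

section rigid

variable {A : Type u} [Category.{v} A] [MonoidalCategory A] [SymmetricCategory A]
  [RightRigidCategory A]

instance epi_whiskerRight {X Y : A} (f : X ⟶ Y) [Epi f] (Z : A) : Epi (f ▷ Z) := by
  have := (tensorRightAdjunction Z Zᘁ).leftAdjoint_preservesColimits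
  have h : Epi ((tensorRight Z).map f) := inferInstance
  exact h

instance mono_whiskerRight {X Y : A} (f : X ⟶ Y) [Mono f] (Z : A) : Mono (f ▷ Z) := by
  have adj := @tensorRightAdjunction A _ _ Zᘁ Z (exactPairing_swap Z Zᘁ)
  have := adj.rightAdjoint_preservesLimits
  have h : Mono ((tensorRight Z).map f) := inferInstance
  exact h

instance epi_whiskerLeft {X Y : A} (f : X ⟶ Y) [Epi f] (Z : A) : Epi (Z ◁ f) := by
  have h : Z ◁ f = (β_ Z X).hom ≫ f ▷ Z ≫ (β_ Y Z).hom := by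
    rw [← Category.assoc, ← BraidedCategory.braiding_naturality_right, Category.assoc,
      SymmetricCategory.symmetry, Category.comp_id]
  rw [h]
  infer_instance

instance mono_whiskerLeft {X Y : A} (f : X ⟶ Y) [Mono f] (Z : A) : Mono (Z ◁ f) := by
  have h : Z ◁ f = (β_ Z X).hom ≫ f ▷ Z ≫ (β_ Y Z).hom := by
    rw [← Category.assoc, ← BraidedCategory.braiding_naturality_right, Category.assoc,
      SymmetricCategory.symmetry, Category.comp_id]
  rw [h]
  infer_instance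

theorem ev'_comp {S M : A} (x : S ⟶ M) : x ▷ Mᘁ ≫ ev' M = S ◁ xᘁ ≫ ev' S := by
  unfold ev'
  rw [← Category.assoc, BraidedCategory.braiding_naturality_left, Category.assoc,
    ← rightAdjointMate_comp_evaluation, ← Category.assoc,
    ← BraidedCategory.braiding_naturality_right, Category.assoc]

theorem zigzag' (M : A) : M ◁ coev M ≫ (α_ _ _ _).inv ≫ ev' M ▷ M =
    (ρ_ M).hom ≫ (λ_ M).inv := by
  have h := @coevaluation_evaluation A _ _ Mᘁ M (exactPairing_swap M Mᘁ)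
  have h1 : @coevaluation A _ _ Mᘁ M (exactPairing_swap M Mᘁ) = coev M := by
    show η_ M Mᘁ ≫ (β_ Mᘁ M).inv = _
    unfold coev
    rw [SymmetricCategory.braiding_swap_eq_inv_braiding]
  have h2 : @evaluation A _ _ Mᘁ M (exactPairing_swap M Mᘁ) = ev' M := rfl
  rw [h1, h2] at h
  exact h

theorem ptr_scal' {M Z : A} (y : Z ⟶ 𝟙_ A) (b : M ⟶ M) :
    ptr (M ◁ y ≫ (ρ_ M).hom ≫ b) = y ≫ tr b := by
  unfold ptr
  rw [tr_eq]
  calc (λ_ Z).inv ≫ coev M ▷ Z ≫ (α_ _ _ _).hom ≫ Mᘁ ◁ (M ◁ y ≫ (ρ_ M).hom ≫ b) ≫ ε_ M Mᘁ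
      = (λ_ Z).inv ≫ coev M ▷ Z ≫ ((α_ _ _ _).hom ≫ Mᘁ ◁ (M ◁ y)) ≫ Mᘁ ◁ (ρ_ M).hom ≫
          Mᘁ ◁ b ≫ ε_ M Mᘁ := by simp
    _ = (λ_ Z).inv ≫ (coev M ▷ Z ≫ (Mᘁ ⊗ M) ◁ y) ≫ (α_ _ _ _).hom ≫ Mᘁ ◁ (ρ_ M).hom ≫
          Mᘁ ◁ b ≫ ε_ M Mᘁ := by
        rw [← associator_naturality_right]; simp
    _ = (λ_ Z).inv ≫ ((𝟙_ A) ◁ y ≫ coev M ▷ (𝟙_ A)) ≫ (α_ _ _ _).hom ≫ Mᘁ ◁ (ρ_ M).hom ≫
          Mᘁ ◁ b ≫ ε_ M Mᘁ := by rw [whisker_exchange]
    _ = y ≫ coev M ≫ Mᘁ ◁ b ≫ ε_ M Mᘁ := by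
        simp only [Category.assoc]
        rw [← Category.assoc (λ_ Z).inv, ← leftUnitor_inv_naturality]
        simp only [Category.assoc]
        simp [unitors_inv_equal]

theorem epi_mate {S M : A} (x : S ⟶ M) [Mono x] : Epi (xᘁ) := by
  constructor
  intro Z g k h
  have key : ∀ g : Sᘁ ⟶ Z, (η_ S Sᘁ ≫ S ◁ g) ≫ x ▷ Z = η_ M Mᘁ ≫ M ◁ (xᘁ ≫ g) := by
    intro g
    rw [Category.assoc, whisker_exchange, ← Category.assoc, ← coevaluation_comp_rightAdjointMate]
    simp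
  have h1 : η_ S Sᘁ ≫ S ◁ g = η_ S Sᘁ ≫ S ◁ k := by
    rw [← cancel_mono (x ▷ Z), key, key, h]
  have h2 := congrArg (tensorLeftHomEquiv (𝟙_ A) S Sᘁ Z).symm h1
  rw [tensorLeftHomEquiv_symm_coevaluation_comp_whiskerLeft,
    tensorLeftHomEquiv_symm_coevaluation_comp_whiskerLeft] at h2
  exact (cancel_epi _).mp h2

end rigid

section preadd

variable {A : Type u} [Category.{v} A] [Preadditive A] [MonoidalCategory A]
  [MonoidalPreadditive A] [SymmetricCategory A] [RightRigidCategory A]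

theorem isZero_tensor {X : A} (Z : A) (h : IsZero X) : IsZero (Z ⊗ X) := by
  rw [IsZero.iff_id_eq_zero] at h ⊢
  rw [← MonoidalCategory.whiskerLeft_id, h]
  simp

theorem isZero_of_iso {X Y : A} (e : X ≅ Y) (h : IsZero X) : IsZero Y := h.of_iso e.symm

/-- If `V ⊗ K = 0` then `K ⊗ Vᘁ = 0`. -/
theorem isZero_dual {V X : A} (h : IsZero (V ⊗ X)) : IsZero (X ⊗ Vᘁ) := by
  have h1 : IsZero ((X ⊗ Vᘁ) ⊗ V) := by
    have h2 : IsZero (Vᘁ ⊗ (V ⊗ X)) := isZero_tensor _ h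
    refine isZero_of_iso ?_ h2
    exact (whiskerLeftIso Vᘁ (β_ V X)) ≪≫ (β_ Vᘁ (X ⊗ V)) ≪≫ α_ X V Vᘁ ≪≫
      (whiskerLeftIso X (β_ V Vᘁ)) ≪≫ (α_ X Vᘁ V).symm
  rw [IsZero.iff_id_eq_zero]
  apply (tensorRightHomEquiv (X ⊗ Vᘁ) V Vᘁ X).symm.injective
  exact h1.eq_of_src _ _

/-- `p ⊗ Z` is again a cokernel of `x ⊗ Z`, for an arbitrary `x`. -/
theorem desc_tensor' {S M Q : A} {x : S ⟶ M} {p : M ⟶ Q} (w : x ≫ p = 0)
    (hc : IsColimit (CokernelCofork.ofπ p w)) {Z W : A} (h : M ⊗ Z ⟶ W)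
    (hx : x ▷ Z ≫ h = 0) : ∃ h' : Q ⊗ Z ⟶ W, p ▷ Z ≫ h' = h := by
  set g : M ⟶ W ⊗ Zᘁ := tensorRightHomEquiv M Z Zᘁ W h with hg
  have hg0 : x ≫ g = 0 := by
    apply (tensorRightHomEquiv _ Z Zᘁ W).symm.injective
    rw [tensorRightHomEquiv_symm_naturality, hg, Equiv.symm_apply_apply, hx, equiv_zero]
  obtain ⟨g', hg'⟩ := CokernelCofork.IsColimit.desc' hc g hg0
  refine ⟨(tensorRightHomEquiv Q Z Zᘁ W).symm g', ?_⟩
  have hg'' : p ≫ g' = g := hg'
  rw [← tensorRightHomEquiv_symm_naturality, hg'', hg, Equiv.symm_apply_apply]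

end preadd

section abelian

variable {A : Type u} [Category.{v} A] [Abelian A] [MonoidalCategory A]
  [MonoidalPreadditive A] [SymmetricCategory A] [RightRigidCategory A]

/-- If `V ⊗ K = 0`, where `K` is the kernel of the epimorphism `p : 1 ⟶ V`, then `p` splits. -/
theorem split_of_zero {V : A} (p : 𝟙_ A ⟶ V) [Epi p] :
    ∃ s : V ⟶ 𝟙_ A, s ≫ p = 𝟙 V := by
  set X := kernel p with hX
  set i : X ⟶ 𝟙_ A := kernel.ι p with hi
  -- `V ⊗ X = 0`
  have h0 : V ◁ i = 0 := by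
    rw [← cancel_epi (p ▷ X), ← whisker_exchange]
    have : i ≫ p = 0 := kernel.condition p
    simp only [id_whiskerLeft, whiskerRight_id, Category.assoc]
    rw [unitors_inv_equal, Iso.inv_hom_id_assoc, ← Category.assoc i p, this]
    simp
  have h1 : IsZero (V ⊗ X) := IsZero.of_mono_eq_zero (V ◁ i) h0
  have h2 : IsZero (X ⊗ Vᘁ) := isZero_dual h1
  -- `p ⊗ Vᘁ` is a monomorphism
  have hmono : Mono (p ▷ Vᘁ) := by
    apply Preadditive.mono_of_cancel_zero
    intro W g hg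
    set g' : W ⊗ V ⟶ 𝟙_ A := (tensorRightHomEquiv W V Vᘁ (𝟙_ A)).symm g with hg'
    have hg1 : g = tensorRightHomEquiv W V Vᘁ (𝟙_ A) g' := by
      rw [hg', Equiv.apply_symm_apply]
    have hg2 : g' ≫ p = 0 := by
      apply (tensorRightHomEquiv W V Vᘁ V).injective
      rw [tensorRightHomEquiv_naturality, ← hg1, hg]
      simp [tensorRightHomEquiv]
    have hg3 : g' = kernel.lift p g' hg2 ≫ i := (kernel.lift_ι p g' hg2).symm
    rw [hg1, hg3, tensorRightHomEquiv_naturality, h2.eq_of_tgt (tensorRightHomEquiv W V Vᘁ X _) 0,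
      zero_comp]
  have hiso : IsIso (p ▷ Vᘁ) := isIso_of_mono_of_epi _
  set t : 𝟙_ A ⟶ 𝟙_ A ⊗ Vᘁ := η_ V Vᘁ ≫ inv (p ▷ Vᘁ) with ht
  set s' : 𝟙_ A ⊗ V ⟶ 𝟙_ A := (tensorRightHomEquiv (𝟙_ A) V Vᘁ (𝟙_ A)).symm t with hs'
  have hs : s' ≫ p = (λ_ V).hom := by
    apply (tensorRightHomEquiv (𝟙_ A) V Vᘁ V).injective
    rw [tensorRightHomEquiv_naturality, hs', Equiv.apply_symm_apply, ht, Category.assoc,
      IsIso.inv_hom_id, Category.comp_id]
    simp [tensorRightHomEquiv, ← unitors_inv_equal]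
  exact ⟨(λ_ V).inv ≫ s', by rw [Category.assoc, hs, Iso.inv_hom_id]⟩

variable [Linear ℚ A]

/-- The unit object of a rigid abelian tensor category with `End 1 = ℚ` is simple: nonzero
morphisms out of it are monomorphisms. -/
theorem mono_of_unit (hu : UnitRat A) {M : A} (x : 𝟙_ A ⟶ M) (hx : x ≠ 0) : Mono x := by
  set p := Abelian.factorThruImage x with hp
  set m := Abelian.image.ι x with hm
  have hpm : p ≫ m = x := Abelian.image.fac x
  obtain ⟨s, hs⟩ := split_of_zero p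
  obtain ⟨c, hc⟩ := hu.scalar (p ≫ s)
  have hid : (p ≫ s) ≫ (p ≫ s) = p ≫ s := by
    rw [Category.assoc, ← Category.assoc s p s, hs, Category.id_comp]
  rw [hc, Linear.smul_comp, Category.id_comp, smul_smul, ← sub_eq_zero, ← sub_smul] at hid
  rcases smul_eq_zero.mp hid with h | h
  · have h2 : c = 0 ∨ c = 1 := by
      have : c * (c - 1) = 0 := by linarith
      rcases mul_eq_zero.mp this with h | h
      · exact Or.inl h
      · exact Or.inr (by linarith)
    rcases h2 with h2 | h2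
    · exfalso
      apply hx
      have h3 : p = 0 := by
        have : p = (p ≫ s) ≫ p := by rw [Category.assoc, hs, Category.comp_id]
        rw [this, hc, h2, zero_smul, zero_comp]
      rw [← hpm, h3, zero_comp]
    · rw [h2, one_smul] at hc
      have h4 : Mono p := by
        have : Mono (p ≫ s) := by rw [hc]; infer_instance
        exact mono_of_mono p s
      rw [← hpm]
      exact mono_comp p m
  · exact absurd h hu.one_ne_zero

/-- In a rigid abelian tensor category with `End 1 = ℚ` the morphisms out of the unit are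
normal. -/
theorem unitNormal (hu : UnitRat A) : UnitNormal A := by
  intro M x hx
  have hmono := mono_of_unit hu x hx
  refine ⟨cokernel x, cokernel.π x, cokernel.condition x, ⟨cokernelIsCokernel x⟩, ⟨?_⟩⟩
  exact Abelian.monoIsKernelOfCokernel (CokernelCofork.ofπ (cokernel.π x) (cokernel.condition x))
    (cokernelIsCokernel x)

end abelian

end U226.AB
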