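import Pool.Agent.U226.AB.Abel

/-!
# Additivity of traces on short exact sequences, and its consequences
-/

namespace U226.AB

open CategoryTheory MonoidalCategory BraidedCategory ExactPairing CategoryTheory.Limits

universe v u

variable {A : Type u} [Category.{v} A] [Abelian A] [MonoidalCategory A]
  [MonoidalPreadditive A] [SymmetricCategory A] [RightRigidCategory A]

/-- A scaled retraction of a monomorphism exists after an epimorphism `P ⟶ 1`. -/
theorem exists_retraction {S M : A} (x : S ⟶ M) [Mono x] :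
    ∃ (P : A) (q : P ⟶ 𝟙_ A) (_ : Epi q) (h : M ⊗ P ⟶ S), x ▷ P ≫ h = S ◁ q ≫ (ρ_ S).hom := by
  have hxe : Epi (xᘁ) := epi_mate x
  let P := pullback (xᘁ ▷ S) (coev S)
  let q : P ⟶ 𝟙_ A := pullback.snd (xᘁ ▷ S) (coev S)
  let f : P ⟶ Mᘁ ⊗ S := pullback.fst (xᘁ ▷ S) (coev S)
  have hcond : f ≫ xᘁ ▷ S = q ≫ coev S := pullback.condition
  refine ⟨P, q, inferInstance, M ◁ f ≫ (α_ _ _ _).inv ≫ ev' M ▷ S ≫ (λ_ S).hom, ?_⟩
  calc x ▷ P ≫ M ◁ f ≫ (α_ _ _ _).inv ≫ ev' M ▷ S ≫ (λ_ S).hom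
      = (x ▷ P ≫ M ◁ f) ≫ (α_ _ _ _).inv ≫ ev' M ▷ S ≫ (λ_ S).hom := by simp
    _ = S ◁ f ≫ (x ▷ (Mᘁ ⊗ S) ≫ (α_ _ _ _).inv) ≫ ev' M ▷ S ≫ (λ_ S).hom := by
        rw [← whisker_exchange]; simp
    _ = S ◁ f ≫ (α_ _ _ _).inv ≫ (x ▷ Mᘁ ≫ ev' M) ▷ S ≫ (λ_ S).hom := by
        rw [associator_inv_naturality_left]; simp
    _ = S ◁ f ≫ ((α_ _ _ _).inv ≫ (S ◁ xᘁ) ▷ S) ≫ ev' S ▷ S ≫ (λ_ S).hom := by
        rw [ev'_comp]; simp
    _ = S ◁ (f ≫ xᘁ ▷ S) ≫ (α_ _ _ _).inv ≫ ev' S ▷ S ≫ (λ_ S).hom := by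
        rw [← associator_inv_naturality_middle]; simp
    _ = S ◁ q ≫ (S ◁ coev S ≫ (α_ _ _ _).inv ≫ ev' S ▷ S) ≫ (λ_ S).hom := by
        rw [hcond]; simp
    _ = S ◁ q ≫ (ρ_ S).hom := by rw [zigzag']; simp

/-- Additivity of the trace. -/
theorem tr_exact {S M : A} (x : S ⟶ M) [Mono x] {a : S ⟶ S} {b : M ⟶ M}
    {c : cokernel x ⟶ cokernel x} (hab : a ≫ x = x ≫ b) (hbc : b ≫ cokernel.π x =
      cokernel.π x ≫ c) : tr b = tr a + tr c := by
  obtain ⟨P, q, hq, h, hh⟩ := exists_retraction x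
  set p := cokernel.π x with hp
  have w : x ≫ p = 0 := cokernel.condition x
  set D : M ⊗ P ⟶ M := M ◁ q ≫ (ρ_ M).hom - h ≫ x with hD
  have hD0 : x ▷ P ≫ D = 0 := by
    have e1 : x ▷ P ≫ M ◁ q ≫ (ρ_ M).hom = S ◁ q ≫ (ρ_ S).hom ≫ x := by
      rw [← Category.assoc, ← whisker_exchange]
      simp
    rw [hD, Preadditive.comp_sub, e1, ← Category.assoc (x ▷ P), hh, Category.assoc, sub_self]
  obtain ⟨r, hr⟩ := desc_tensor' w (cokernelIsCokernel x) D hD0
  have hrp : r ≫ p = (cokernel x) ◁ q ≫ (ρ_ (cokernel x)).hom := by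
    rw [← cancel_epi (p ▷ P), ← Category.assoc, hr, hD, Preadditive.sub_comp, Category.assoc,
      Category.assoc, w, ← Category.assoc (p ▷ P), ← whisker_exchange]
    simp
  have h1 : ptr (D ≫ b) = q ≫ tr c := by
    rw [← hr, Category.assoc, ptr_cyc, Category.assoc, hbc, ← Category.assoc, hrp,
      Category.assoc, ptr_scal']
  have h2 : ptr (D ≫ b) = q ≫ tr b - q ≫ tr a := by
    have e : h ≫ x ≫ b = (h ≫ a) ≫ x := by rw [← hab]; simp
    rw [hD, Preadditive.sub_comp, ptr_sub, Category.assoc, Category.assoc, ptr_scal', e,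
      ← ptr_cyc, ← Category.assoc, hh, Category.assoc, ptr_scal']
  rw [← cancel_epi q, Preadditive.comp_add, ← h1, h2]
  abel

variable [Linear ℚ A] [MonoidalLinear ℚ A] {K : Type*} [Field K] [CharZero K]

namespace FrobeniusData

variable (D : FrobeniusData A K)

theorem mult_exact (hu : UnitRat A) {S M : A} (x : S ⟶ M) [Mono x] (α : K) :
    D.mult M α = D.mult S α + D.mult (cokernel x) α := by
  apply D.mult_add _ hu
  intro n
  exact tr_exact x (D.iter_comp x n) (D.iter_comp _ n)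

theorem dim_exact (hu : UnitRat A) {S M : A} (x : S ⟶ M) [Mono x] :
    D.dim M = D.dim S + D.dim (cokernel x) := by
  have h : D.mult M = D.mult S + D.mult (cokernel x) := by
    ext α
    exact D.mult_exact hu x α
  unfold dim
  rw [h, Finsupp.sum_add_index' (fun _ => rfl) (fun _ _ _ => rfl)]

theorem dim_eq_zero {M : A} (h : D.dim M = 0) : D.mult M = 0 := by
  unfold dim at h
  rw [Finsupp.sum, Finset.sum_eq_zero_iff] at h
  ext α
  by_contra h0
  exact h0 (h α (Finsupp.mem_support_iff.mpr h0))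

/-- Proper subobjects have fewer eigenvalues. -/
theorem dim_lt (hu : UnitRat A) {S M : A} (x : S ⟶ M) [Mono x] (hx : ¬ IsIso x) :
    D.dim S < D.dim M := by
  have h := D.dim_exact hu x
  rcases Nat.eq_zero_or_pos (D.dim (cokernel x)) with h0 | h0
  · exfalso
    apply hx
    have h1 := D.isZero hu (unitNormal hu) (D.dim_eq_zero h0)
    have h2 : cokernel.π x = 0 := h1.eq_of_tgt _ _
    have h3 : Epi x := Preadditive.epi_of_cokernel_zero h2
    exact isIso_of_mono_of_epi x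
  · omega

theorem length_le (hu : UnitRat A) (M : A) (s : LTSeries (Subobject M)) :
    s.length ≤ D.dim M := by
  have hmono : ∀ X Y : Subobject M, X < Y → D.dim (X : A) < D.dim (Y : A) := by
    intro X Y hXY
    apply D.dim_lt hu (Subobject.ofLE X Y hXY.le)
    intro hiso
    have h1 : X = Y := by
      apply le_antisymm hXY.le
      refine Subobject.le_of_comm (inv (Subobject.ofLE X Y hXY.le)) ?_
      rw [IsIso.inv_comp_eq]
      exact (Subobject.ofLE_arrow hXY.le).symm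
    exact absurd h1 hXY.ne
  have key : ∀ i : ℕ, (hi : i < s.length + 1) → i ≤ D.dim ((s.toFun ⟨i, hi⟩ : Subobject M) : A) := by
    intro i
    induction i with
    | zero => intro _; omega
    | succ i ih =>
      intro hi
      have h1 := ih (by omega)
      have h2 := hmono _ _ (s.strictMono (show (⟨i, by omega⟩ : Fin (s.length + 1)) <
        ⟨i + 1, hi⟩ from by simp [Fin.lt_def]))
      omega
  have h1 := key s.length (by omega)
  have h2 : D.dim ((s.toFun ⟨s.length, by omega⟩ : Subobject M) : A) ≤ D.dim M := by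
    have := D.dim_exact hu (s.toFun ⟨s.length, by omega⟩ : Subobject M).arrow
    omega
  omega

end FrobeniusData

theorem iter_succ' {C : Type*} [Category C] {M : C} (f : M ⟶ M) (n : ℕ) :
    iter f (n + 1) = f ≫ iter f n := by
  induction n with
  | zero => simp [iter]
  | succ n ih =>
    show iter f (n + 1) ≫ f = f ≫ iter f n ≫ f
    rw [ih, Category.assoc]

theorem iter_fac {C : Type*} [Category C] {M N : C} (e : M ⟶ N) (m : N ⟶ M) (n : ℕ) :
    iter (e ≫ m) (n + 1) = e ≫ iter (m ≫ e) n ≫ m := by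
  induction n with
  | zero => simp [iter]
  | succ n ih =>
    show iter (e ≫ m) (n + 1) ≫ e ≫ m = e ≫ (iter (m ≫ e) n ≫ m ≫ e) ≫ m
    rw [ih]
    simp

theorem iter_zero_of_le {C : Type*} [Category C] [Preadditive C] {M : C} {f : M ⟶ M} {n k : ℕ}
    (h : iter f n = 0) (hk : n ≤ k) : iter f k = 0 := by
  induction k, hk using Nat.le_induction with
  | base => exact h
  | succ k _ ih =>
    show iter f k ≫ f = 0
    rw [ih, zero_comp]

theorem epi_iter {C : Type*} [Category C] {M : C} (f : M ⟶ M) [Epi f] (n : ℕ) :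
    Epi (iter f n) := by
  induction n with
  | zero => show Epi (𝟙 M); infer_instance
  | succ n ih => show Epi (iter f n ≫ f); infer_instance

namespace FrobeniusData

variable (D : FrobeniusData A K)

/-- The index of a nilpotent endomorphism is at most the number of eigenvalues. -/
theorem nil_index (hu : UnitRat A) (d : ℕ) : ∀ (M : A), D.dim M ≤ d → ∀ f : M ⟶ M,
    (∃ n, iter f n = 0) → iter f d = 0 := by
  induction d with
  | zero =>
    intro M hM f _
    have hz := D.isZero hu (unitNormal hu) (D.dim_eq_zero (Nat.le_zero.mp hM))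
    exact hz.eq_of_tgt _ _
  | succ d ih =>
    intro M hM f ⟨n, hn⟩
    set e := Abelian.factorThruImage f
    set m := Abelian.image.ι f
    have hem : e ≫ m = f := Abelian.image.fac f
    by_cases hiso : IsIso m
    · have hepi : Epi f := by rw [← hem]; infer_instance
      have h1 := epi_iter f n
      rw [hn] at h1
      have h2 : IsZero M := IsZero.of_epi_eq_zero (0 : M ⟶ M) rfl
      exact h2.eq_of_tgt _ _
    · have h1 := D.dim_lt hu m hiso
      have h2 := ih (Abelian.image f) (by omega) (m ≫ e) ⟨n + 1, by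
        rw [iter_fac m e n, hem, hn]; simp⟩
      rw [← hem, iter_fac, h2]
      simp

end FrobeniusData

/-- Every morphism `Mᘁ ⟶ 1` is the dual of a morphism `1 ⟶ M`. -/
theorem exists_du {B : Type u} [Category.{v} B] [MonoidalCategory B] [RightRigidCategory B]
    [SymmetricCategory B] {M : B} (y : Mᘁ ⟶ 𝟙_ B) : ∃ s : 𝟙_ B ⟶ M, du s = y := by
  refine ⟨tensorLeftHomEquiv (𝟙_ B) M Mᘁ (𝟙_ B) ((ρ_ Mᘁ).hom ≫ y) ≫ (ρ_ M).hom, ?_⟩
  set s := tensorLeftHomEquiv (𝟙_ B) M Mᘁ (𝟙_ B) ((ρ_ Mᘁ).hom ≫ y) ≫ (ρ_ M).hom with hs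
  have h3 : (tensorLeftHomEquiv (𝟙_ B) M Mᘁ (𝟙_ B)).symm (s ≫ (ρ_ M).inv) =
      Mᘁ ◁ s ≫ ε_ M Mᘁ := by
    simp [tensorLeftHomEquiv, ← unitors_inv_equal]
  have h4 : s ≫ (ρ_ M).inv = tensorLeftHomEquiv (𝟙_ B) M Mᘁ (𝟙_ B) ((ρ_ Mᘁ).hom ≫ y) := by
    rw [hs]; simp
  rw [h4, Equiv.symm_apply_apply] at h3
  unfold du
  rw [← h3]
  simp

/-- If no nonzero morphism out of the unit is numerically trivial, then nonzero morphisms to the
unit split. -/
theorem split_epi (hu : UnitRat A) (h : ∀ M : A, numTrivial M = ⊥) {P : A} (q : P ⟶ 𝟙_ A)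
    (hq : q ≠ 0) : ∃ s : 𝟙_ A ⟶ P, s ≫ q = 𝟙 _ := by
  set x' : 𝟙_ A ⟶ Pᘁ := FrobeniusData.hat P (𝟙_ A) q ≫ (ρ_ _).hom with hx'
  have hx0 : x' ≠ 0 := by
    intro h0
    apply hq
    apply FrobeniusData.hat_injective P (𝟙_ A)
    have : (FrobeniusData.hat P (𝟙_ A) q ≫ (ρ_ _).hom) ≫ (ρ_ _).inv = 0 := by rw [← hx', h0, zero_comp]
    rw [map_zero]
    simpa using this
  have hy : ¬ ∀ y : Pᘁ ⟶ 𝟙_ A, x' ≫ y = 0 := by
    intro hy
    have : x' ∈ numTrivial Pᘁ := hy
    rw [h] at this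
    exact hx0 (by simpa using this)
  push Not at hy
  obtain ⟨y, hy⟩ := hy
  obtain ⟨s, rfl⟩ := exists_du y
  have h1 : x' ≫ du s = tr (s ≫ q) := by
    have e : FrobeniusData.hat P (𝟙_ A) q = coev P ≫ Pᘁ ◁ q := rfl
    rw [← tr_cyc, tr_eq, hx', e]
    unfold du
    simp
  obtain ⟨c, hc⟩ := hu.scalar (s ≫ q)
  have hc0 : c ≠ 0 := by
    rintro rfl
    apply hy
    rw [h1, hc, zero_smul]
    unfold tr
    simp
  exact ⟨c⁻¹ • s, by rw [Linear.smul_comp, hc, smul_smul, inv_mul_cancel₀ hc0, one_smul]⟩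

/-- If no nonzero morphism out of the unit is numerically trivial, then all monomorphisms split:
the category is semisimple. -/
theorem splitMono (hu : UnitRat A) (h : ∀ M : A, numTrivial M = ⊥) {S M : A} (x : S ⟶ M)
    [Mono x] : IsSplitMono x := by
  obtain ⟨P, q, hq, g, hg⟩ := exists_retraction x
  have hq0 : q ≠ 0 := by
    rintro rfl
    have h2 : IsZero (𝟙_ A) := IsZero.of_epi_eq_zero (0 : P ⟶ 𝟙_ A) rfl
    exact hu.one_ne_zero (h2.eq_of_src _ _)
  obtain ⟨s, hs⟩ := split_epi hu h q hq0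
  refine ⟨⟨⟨(ρ_ M).inv ≫ M ◁ s ≫ g, ?_⟩⟩⟩
  calc x ≫ (ρ_ M).inv ≫ M ◁ s ≫ g = (ρ_ S).inv ≫ (x ▷ (𝟙_ A) ≫ M ◁ s) ≫ g := by simp
    _ = (ρ_ S).inv ≫ S ◁ s ≫ x ▷ P ≫ g := by rw [← whisker_exchange]; simp
    _ = (ρ_ S).inv ≫ S ◁ (s ≫ q) ≫ (ρ_ S).hom := by rw [hg]; simp
    _ = 𝟙 S := by rw [hs]; simp

end U226.AB
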