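import Pool.Agent.U226.AB.Rank

/-!
# Frobenius data: the part of the cohomological realization that is used
-/

namespace U226.AB

open CategoryTheory MonoidalCategory BraidedCategory ExactPairing CategoryTheory.Limits

universe v u

/-- The iterates of an endomorphism. -/
def iter {C : Type*} [Category C] {M : C} (f : M ⟶ M) : ℕ → (M ⟶ M)
  | 0 => 𝟙 M
  | n + 1 => iter f n ≫ f

/-- Powers of distinct elements of a field are linearly independent functions of the exponent. -/
theorem pow_indep {K : Type*} [Field K] (u : K →₀ K)
    (h : ∀ n : ℕ, (u.sum fun α c => c * α ^ n) = 0) : u = 0 := by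
  have hli := linearIndependent_monoidHom (Multiplicative ℕ) K
  have hinj : Function.Injective (fun α : K => (powersHom K α : Multiplicative ℕ →* K)) :=
    (powersHom K).injective
  have hli2 := hli.comp (fun α : K => (powersHom K α : Multiplicative ℕ →* K)) hinj
  rw [linearIndependent_iff] at hli2
  apply hli2
  ext n
  have := h n.toAdd
  rw [Finsupp.linearCombination_apply, Finsupp.sum, Finset.sum_apply]
  rw [Finsupp.sum] at this
  simpa using this

/-- **Frobenius data** on a rigid symmetric monoidal `ℚ`-linear category `A`: a natural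
endomorphism `frob M` of every object (the geometric Frobenius), which is the identity on the
unit; for every object `M` a finitely supported function `mult M` (the multiplicities of the
eigenvalues of `frob M` in the total cohomology of `M`); a sign `sign α` depending only on the
eigenvalue (the parity of its weight), which is `+1` for `α = 1`; such that the trace of
`(frob M)^n` is the alternating sum of `α ^ n` (trace formula) and such that the multiplicity of
the eigenvalue `1` on `Mᘁ ⊗ N` is the sum of the products of the multiplicities on `M` and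
`N`. -/
structure FrobeniusData (A : Type u) [Category.{v} A] [Preadditive A] [Linear ℚ A]
    [MonoidalCategory A] [SymmetricCategory A] [RightRigidCategory A]
    (K : Type*) [Field K] where
  frob : ∀ M : A, M ⟶ M
  frob_naturality : ∀ {M N : A} (f : M ⟶ N), frob M ≫ f = f ≫ frob N
  frob_unit : frob (𝟙_ A) = 𝟙 (𝟙_ A)
  mult : A → K →₀ ℕ
  sign : K → ℤˣ
  sign_one : sign 1 = 1
  trace_formula : ∀ (M : A) (n : ℕ), ∃ c : ℚ, tr (iter (frob M) n) = c • 𝟙 (𝟙_ A) ∧
    (c : K) = (mult M).sum fun α m => (((sign α : ℤˣ) : ℤ) : K) * (m : K) * α ^ n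
  mult_hom : ∀ M N : A, mult (Mᘁ ⊗ N) 1 = (mult M).sum fun α m => m * mult N α

/-- The endomorphisms of the unit are the rational numbers. -/
structure UnitRat (A : Type u) [Category.{v} A] [Preadditive A] [Linear ℚ A]
    [MonoidalCategory A] : Prop where
  scalar : ∀ f : 𝟙_ A ⟶ 𝟙_ A, ∃ c : ℚ, f = c • 𝟙 (𝟙_ A)
  one_ne_zero : (𝟙 (𝟙_ A) : 𝟙_ A ⟶ 𝟙_ A) ≠ 0

variable {A : Type u} [Category.{v} A] [Preadditive A] [Linear ℚ A] [MonoidalCategory A]
  [MonoidalPreadditive A] [MonoidalLinear ℚ A] [SymmetricCategory A] [RightRigidCategory A]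
  {K : Type*} [Field K] [CharZero K]

namespace FrobeniusData

variable (D : FrobeniusData A K)

/-- The total number of Frobenius eigenvalues: the dimension of the cohomology of `M`. -/
def dim (M : A) : ℕ := (D.mult M).sum fun _ m => m

/-- The signed multiplicity function with values in `K`. -/
noncomputable def sm (M : A) : K →₀ K :=
  Finsupp.ofSupportFinite (fun α => (((D.sign α : ℤˣ) : ℤ) : K) * (D.mult M α : K))
    ((D.mult M).finite_support.subset (by
      intro α h
      simp only [Function.mem_support, ne_eq] at h ⊢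
      intro h0
      apply h
      rw [h0]; simp))

theorem sm_apply (M : A) (α : K) :
    D.sm M α = (((D.sign α : ℤˣ) : ℤ) : K) * (D.mult M α : K) := rfl

theorem sum_eq (M : A) (n : ℕ) :
    ((D.mult M).sum fun α m => (((D.sign α : ℤˣ) : ℤ) : K) * (m : K) * α ^ n) =
      (D.sm M).sum fun α c => c * α ^ n := by
  have hsub : (D.sm M).support ⊆ (D.mult M).support := by
    intro α h
    rw [Finsupp.mem_support_iff] at h ⊢
    intro h0
    apply h
    rw [sm_apply, h0]; simp
  rw [Finsupp.sum_of_support_subset (D.sm M) hsub _ (by intros; simp), Finsupp.sum]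
  rfl

omit [MonoidalPreadditive A] [MonoidalLinear ℚ A] [CharZero K] in
theorem sign_ne (α : K) [CharZero K] : (((D.sign α : ℤˣ) : ℤ) : K) ≠ 0 := by
  rcases Int.units_eq_one_or (D.sign α) with h | h <;> rw [h] <;> simp

/-- Comparison of two objects whose trace sequences differ by one object's worth. -/
theorem mult_add {M Q S : A}
    (h : ∀ n : ℕ, tr (iter (D.frob M) n) = tr (iter (D.frob Q) n) + tr (iter (D.frob S) n))
    (hu : UnitRat A) (α : K) : D.mult M α = D.mult Q α + D.mult S α := by
  have key : D.sm M - D.sm Q - D.sm S = 0 := by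
    apply pow_indep
    intro n
    obtain ⟨a, ha, ha'⟩ := D.trace_formula M n
    obtain ⟨b, hb, hb'⟩ := D.trace_formula Q n
    obtain ⟨c, hc, hc'⟩ := D.trace_formula S n
    rw [sum_eq] at ha' hb' hc'
    have habc : a = b + c := by
      have h1 := h n
      rw [ha, hb, hc, ← add_smul, ← sub_eq_zero, ← sub_smul] at h1
      rcases smul_eq_zero.mp h1 with h2 | h2
      · linarith
      · exact absurd h2 hu.one_ne_zero
    rw [Finsupp.sum_sub_index (by intros; ring), Finsupp.sum_sub_index (by intros; ring),
      ← ha', ← hb', ← hc', habc]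
    push_cast
    ring
  have h1 := DFunLike.congr_fun key α
  simp only [Finsupp.coe_sub, Pi.sub_apply, sm_apply, Finsupp.coe_zero, Pi.zero_apply] at h1
  have h2 : (((D.sign α : ℤˣ) : ℤ) : K) *
      ((D.mult M α : K) - ((D.mult Q α : K) + (D.mult S α : K))) = 0 := by
    rw [← h1]; ring
  rcases mul_eq_zero.mp h2 with h3 | h3
  · exact absurd h3 (D.sign_ne α)
  · have : (D.mult M α : K) = ((D.mult Q α + D.mult S α : ℕ) : K) := by
      push_cast
      linear_combination h3
    exact_mod_cast this

/-- An object all of whose Frobenius traces vanish has no eigenvalues. -/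
theorem mult_zero {M : A} (h : ∀ n : ℕ, tr (iter (D.frob M) n) = 0) (hu : UnitRat A) :
    D.mult M = 0 := by
  have key : D.sm M = 0 := by
    apply pow_indep
    intro n
    obtain ⟨a, ha, ha'⟩ := D.trace_formula M n
    rw [sum_eq] at ha'
    rw [← ha']
    rw [h n] at ha
    rcases smul_eq_zero.mp ha.symm with h2 | h2
    · rw [h2]; simp
    · exact absurd h2 hu.one_ne_zero
  ext α
  have h1 := DFunLike.congr_fun key α
  rw [sm_apply, Finsupp.coe_zero, Pi.zero_apply] at h1
  rcases mul_eq_zero.mp h1 with h3 | h3
  · exact absurd h3 (D.sign_ne α)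
  · simpa using h3

theorem iter_comp {M N : A} (f : M ⟶ N) (n : ℕ) :
    iter (D.frob M) n ≫ f = f ≫ iter (D.frob N) n := by
  induction n with
  | zero => simp [iter]
  | succ n ih =>
    show (iter (D.frob M) n ≫ D.frob M) ≫ f = f ≫ iter (D.frob N) n ≫ D.frob N
    rw [Category.assoc, D.frob_naturality f, ← Category.assoc, ih, Category.assoc]

theorem iter_unit (n : ℕ) : iter (D.frob (𝟙_ A)) n = 𝟙 _ := by
  induction n with
  | zero => rfl
  | succ n ih =>
    show iter (D.frob (𝟙_ A)) n ≫ D.frob (𝟙_ A) = _
    rw [ih, D.frob_unit, Category.comp_id]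

end FrobeniusData

end U226.AB
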