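import Pool.Agent.U226.AB.UnitN

/-!
# Numerically trivial endomorphisms are nilpotent, and the squeeze with Tate's conjecture
-/

namespace U226.AB

open CategoryTheory MonoidalCategory BraidedCategory ExactPairing CategoryTheory.Limits

universe v u

/-- Fitting's lemma in a finite-dimensional algebra. -/
theorem exists_idem {R : Type*} [Ring R] [Algebra ℚ R] [Module.Finite ℚ R] (f : R) :
    ∃ (n : ℕ) (e c : R), e * e = e ∧ e = f * c ∧ f ^ n * (1 - e) = 0 := by
  set L : Module.End ℚ R := LinearMap.mulLeft ℚ f with hL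
  obtain ⟨k, hk⟩ := Filter.eventually_atTop.mp (LinearMap.eventually_isCompl_ker_pow_range_pow L)
  set n := k + 1 with hn
  have hcompl := hk n (by omega)
  have hLn : ∀ g : R, (L ^ n) g = f ^ n * g := by
    intro g
    have : L ^ n = LinearMap.mulLeft ℚ (f ^ n) := by
      rw [hL, LinearMap.pow_mulLeft]
    rw [this]; rfl
  have h1 : (1 : R) ∈ LinearMap.ker (L ^ n) ⊔ LinearMap.range (L ^ n) := by
    rw [hcompl.sup_eq_top]; trivial
  obtain ⟨a, ha, b, hb, hab⟩ := Submodule.mem_sup.mp h1
  have ha' : f ^ n * a = 0 := by rw [← hLn]; exact ha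
  obtain ⟨c, hc⟩ := hb
  rw [hLn] at hc
  have hker : ∀ g, a * g ∈ LinearMap.ker (L ^ n) := by
    intro g
    rw [LinearMap.mem_ker, hLn, ← mul_assoc, ha', zero_mul]
  have hran : ∀ g, b * g ∈ LinearMap.range (L ^ n) := by
    intro g
    exact ⟨c * g, by rw [hLn, ← mul_assoc, hc]⟩
  have hbb : b - b * b = a * b := by
    have : (a + b) * b = b := by rw [hab, one_mul]
    rw [add_mul] at this
    rw [sub_eq_iff_eq_add, this]
  have hzero : a * b = 0 := by
    have h2 : a * b ∈ LinearMap.ker (L ^ n) ⊓ LinearMap.range (L ^ n) := by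
      refine ⟨hker b, ?_⟩
      rw [← hbb]
      have h3 := hran 1
      rw [mul_one] at h3
      exact Submodule.sub_mem _ h3 (hran b)
    rw [hcompl.inf_eq_bot] at h2
    simpa using h2
  refine ⟨n, b, f ^ k * c, ?_, ?_, ?_⟩
  · rw [hzero] at hbb
    exact (sub_eq_zero.mp hbb).symm
  · rw [← hc, ← mul_assoc, hn, pow_succ']
  · have : 1 - b = a := by rw [← hab]; abel
    rw [this, ha']

variable {A : Type u} [Category.{v} A] [Preadditive A] [Linear ℚ A] [MonoidalCategory A]
  [MonoidalPreadditive A] [MonoidalLinear ℚ A] [SymmetricCategory A] [RightRigidCategory A]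
  {K : Type*} [Field K] [CharZero K]

/-- A numerically trivial endomorphism. -/
def NumTrivial {M : A} (f : M ⟶ M) : Prop := ∀ g : M ⟶ M, tr (f ≫ g) = 0

/-- The numerically trivial morphisms from the unit. -/
def numTrivial (M : A) : Submodule ℚ (𝟙_ A ⟶ M) where
  carrier := {x | ∀ y : M ⟶ 𝟙_ A, x ≫ y = 0}
  add_mem' hx hy := fun z => by simp [hx z, hy z]
  zero_mem' := fun z => by simp
  smul_mem' c x hx := fun z => by simp [hx z]

omit [Linear ℚ A] [MonoidalPreadditive A] [MonoidalLinear ℚ A] [SymmetricCategory A]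
  [RightRigidCategory A] [MonoidalCategory A] [Preadditive A] in
theorem iter_eq_pow {M : A} (f : End M) (n : ℕ) : iter f n = f ^ n := by
  induction n with
  | zero => rfl
  | succ n ih =>
    rw [pow_succ', ← ih]
    rfl

namespace FrobeniusData

variable (D : FrobeniusData A K)

include D in
theorem nilpotent [IsIdempotentComplete A] (hu : UnitRat A) (hN : UnitNormal A) {M : A}
    (f : M ⟶ M) (hf : NumTrivial f) : ∃ n : ℕ, iter f n = 0 := by
  have hfin : Module.Finite ℚ (End M) := (D.finrank_hom_le hu hN M M).1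
  obtain ⟨n, e, c, hee, hec, hne⟩ := exists_idem (R := End M) f
  have he' : (e : M ⟶ M) ≫ (e : M ⟶ M) = e := hee
  obtain ⟨Y, i, r, hir, hri⟩ := IsIdempotentComplete.idempotents_split M e he'
  have hec' : (e : M ⟶ M) = c ≫ f := hec
  have hY : D.mult Y = 0 := by
    apply D.mult_zero _ hu
    intro m
    have h1 : iter (D.frob Y) m = i ≫ (iter (D.frob M) m ≫ r) := by
      rw [D.iter_comp r m, ← Category.assoc, hir, Category.id_comp]
    rw [h1, tr_cyc, Category.assoc, hri, hec', ← Category.assoc, tr_cyc]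
    exact hf _
  have hYz := D.isZero hu hN hY
  have he0 : (e : M ⟶ M) = 0 := by
    rw [← hri, hYz.eq_of_tgt r 0, zero_comp]
  refine ⟨n, ?_⟩
  have h3 : e = 0 := he0
  rw [h3, sub_zero, mul_one] at hne
  exact (iter_eq_pow (M := M) f n).trans hne

/-- If the classes modulo numerical equivalence fill up the eigenvalue `1` (Tate's conjecture for
`M`), then no nonzero class is numerically trivial. -/
theorem squeeze (hu : UnitRat A) (hN : UnitNormal A) (M : A)
    (hT : D.mult M 1 ≤ Module.finrank ℚ ((𝟙_ A ⟶ M) ⧸ numTrivial M)) :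
    numTrivial M = ⊥ := by
  have h0 := D.finite hu hN M
  have h1 := D.finrank_le hu hN M
  have h2 := (numTrivial M).finrank_quotient_add_finrank
  apply Submodule.finrank_eq_zero.mp
  omega

end FrobeniusData

/-- Conversely, if no nonzero morphism from the unit is numerically trivial, then the morphisms
from the unit are normal. -/
theorem unitNormal_of_num [IsIdempotentComplete A] (hu : UnitRat A)
    (h : ∀ M : A, numTrivial M = ⊥) : UnitNormal A := by
  intro M x hx
  have hx' : ¬ ∀ y : M ⟶ 𝟙_ A, x ≫ y = 0 := by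
    intro hy
    have : x ∈ numTrivial M := hy
    rw [h M] at this
    exact hx (by simpa using this)
  push Not at hx'
  obtain ⟨y, hy⟩ := hx'
  obtain ⟨c, hc⟩ := hu.scalar (x ≫ y)
  have hc0 : c ≠ 0 := by
    rintro rfl
    rw [zero_smul] at hc
    exact hy hc
  set z : M ⟶ 𝟙_ A := c⁻¹ • y with hz
  have hxz : x ≫ z = 𝟙 _ := by
    rw [hz, Linear.comp_smul, hc, smul_smul, inv_mul_cancel₀ hc0, one_smul]
  set e : M ⟶ M := 𝟙 M - z ≫ x with he
  have hee : e ≫ e = e := by
    rw [he]
    simp only [Preadditive.sub_comp, Preadditive.comp_sub, Category.id_comp, Category.comp_id,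
      Category.assoc]
    rw [← Category.assoc x z x, hxz, Category.id_comp, sub_self, sub_zero]
  obtain ⟨Q, i, p, hip, hpi⟩ := IsIdempotentComplete.idempotents_split M e hee
  have hxe : x ≫ e = 0 := by
    rw [he, Preadditive.comp_sub, ← Category.assoc, hxz]
    simp
  have w : x ≫ p = 0 := by
    have : x ≫ p = (x ≫ e) ≫ p := by
      rw [← hpi]
      simp only [Category.assoc]
      rw [hip, Category.comp_id]
    rw [this, hxe, zero_comp]
  refine ⟨Q, p, w, ⟨?_⟩, ⟨?_⟩⟩
  · refine CokernelCofork.IsColimit.ofπ p w (fun g _ => i ≫ g) ?_ ?_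
    · intro W g hg
      rw [← Category.assoc, hpi, he, Preadditive.sub_comp, Category.assoc, hg]
      simp
    · intro W g hg m hm
      rw [← hm, ← Category.assoc, hip, Category.id_comp]
  · refine KernelFork.IsLimit.ofι x w (fun g _ => g ≫ z) ?_ ?_
    · intro W g hg
      have h1 : g ≫ e = 0 := by rw [← hpi, ← Category.assoc, hg, zero_comp]
      rw [he, Preadditive.comp_sub, Category.comp_id, sub_eq_zero] at h1
      rw [Category.assoc, ← h1]
    · intro W g hg m hm
      rw [← hm, Category.assoc, hxz, Category.comp_id]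

end U226.AB
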