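import Pool.Agent.U226.AB.Tr

/-!
# Additivity of traces along a cokernel of a morphism out of the unit
-/

namespace U226.AB

open CategoryTheory MonoidalCategory BraidedCategory ExactPairing CategoryTheory.Limits

universe v u

variable {A : Type u} [Category.{v} A] [Preadditive A] [MonoidalCategory A]
  [MonoidalPreadditive A] [SymmetricCategory A] [RightRigidCategory A]

theorem tr_add {M : A} (f g : M ⟶ M) : tr (f + g) = tr f + tr g := by
  unfold tr; simp [MonoidalPreadditive.add_whiskerRight]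

theorem tr_sub {M : A} (f g : M ⟶ M) : tr (f - g) = tr f - tr g := by
  have h := tr_add (f - g) g
  rw [sub_add_cancel] at h
  rw [h]; abel

theorem ptr_add {M Z : A} (f g : M ⊗ Z ⟶ M) : ptr (f + g) = ptr f + ptr g := by
  unfold ptr; simp [MonoidalPreadditive.whiskerLeft_add]

theorem ptr_sub {M Z : A} (f g : M ⊗ Z ⟶ M) : ptr (f - g) = ptr f - ptr g := by
  have h := ptr_add (f - g) g
  rw [sub_add_cancel] at h
  rw [h]; abel

section

variable {M Q : A} {x : 𝟙_ A ⟶ M} {p : M ⟶ Q} (w : x ≫ p = 0)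

theorem equiv_zero (X Y Z : A) :
    (tensorRightHomEquiv X Y Yᘁ Z).symm (0 : X ⟶ Z ⊗ Yᘁ) = 0 := by
  simp [tensorRightHomEquiv]

/-- `p ⊗ Z` is again a cokernel of `x ⊗ Z`. -/
theorem desc_tensor (hc : IsColimit (CokernelCofork.ofπ p w)) {Z W : A} (h : M ⊗ Z ⟶ W)
    (hx : x ▷ Z ≫ h = 0) : ∃ h' : Q ⊗ Z ⟶ W, p ▷ Z ≫ h' = h := by
  set g : M ⟶ W ⊗ Zᘁ := tensorRightHomEquiv M Z Zᘁ W h with hg
  have hg0 : x ≫ g = 0 := by
    apply (tensorRightHomEquiv _ Z Zᘁ W).symm.injective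
    rw [tensorRightHomEquiv_symm_naturality, hg, Equiv.symm_apply_apply, hx, equiv_zero]
  obtain ⟨g', hg'⟩ := CokernelCofork.IsColimit.desc' hc g hg0
  refine ⟨(tensorRightHomEquiv Q Z Zᘁ W).symm g', ?_⟩
  have hg'' : p ≫ g' = g := hg'
  rw [← tensorRightHomEquiv_symm_naturality, hg'', hg, Equiv.symm_apply_apply]

theorem epi_tensor (hc : IsColimit (CokernelCofork.ofπ p w)) {Z W : A} (a b : Q ⊗ Z ⟶ W)
    (h : p ▷ Z ≫ a = p ▷ Z ≫ b) : a = b := by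
  have hp : Epi p := by
    constructor
    intro R g k e
    exact Cofork.IsColimit.hom_ext hc e
  apply (tensorRightHomEquiv Q Z Zᘁ W).injective
  rw [← cancel_epi p]
  apply (tensorRightHomEquiv M Z Zᘁ W).symm.injective
  rw [tensorRightHomEquiv_symm_naturality, tensorRightHomEquiv_symm_naturality,
    Equiv.symm_apply_apply, Equiv.symm_apply_apply, h]

/-- The dual of a nonzero morphism `1 ⟶ M` is nonzero. -/
theorem du_ne_zero (hx : x ≠ 0) : du x ≠ 0 := by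
  intro h
  apply hx
  have h1 : Mᘁ ◁ x ≫ ε_ M Mᘁ = 0 := by
    have := congrArg (fun t => (ρ_ _).hom ≫ t) h
    simpa [du] using this
  have h2 : x ≫ (ρ_ M).inv = 0 := by
    apply (tensorLeftHomEquiv _ M Mᘁ _).symm.injective
    have h3 : (tensorLeftHomEquiv (𝟙_ A) M Mᘁ (𝟙_ A)).symm (x ≫ (ρ_ M).inv) =
        Mᘁ ◁ x ≫ ε_ M Mᘁ := by
      simp [tensorLeftHomEquiv, ← unitors_inv_equal]
    rw [h3, h1]
    simp [tensorLeftHomEquiv]
  have h4 : (x ≫ (ρ_ M).inv) ≫ (ρ_ M).hom = 0 := by rw [h2]; simp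
  simpa using h4

theorem du_rank (hc : IsColimit (CokernelCofork.ofπ p w)) :
    du x ≫ tr (𝟙 M) = du x ≫ (tr (𝟙 Q) + 𝟙 _) := by
  set y := du x with hy
  set D : M ⊗ Mᘁ ⟶ M := M ◁ y ≫ (ρ_ M).hom - ev' M ≫ x with hD
  have e1 : x ▷ Mᘁ ≫ M ◁ y ≫ (ρ_ M).hom = (λ_ Mᘁ).hom ≫ y ≫ x := by
    rw [← Category.assoc, ← whisker_exchange]
    simp [unitors_inv_equal]
  have e2 : x ▷ Mᘁ ≫ ev' M ≫ x = (λ_ Mᘁ).hom ≫ y ≫ x := by
    have : x ▷ Mᘁ ≫ ev' M = (λ_ Mᘁ).hom ≫ y := by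
      unfold ev'
      rw [← Category.assoc, BraidedCategory.braiding_naturality_left, hy]
      unfold du
      simp
    rw [← Category.assoc, this, Category.assoc]
  have hD0 : x ▷ Mᘁ ≫ D = 0 := by
    rw [hD, Preadditive.comp_sub, e1, e2, sub_self]
  obtain ⟨a, ha⟩ := desc_tensor w hc D hD0
  have hap : a ≫ p = Q ◁ y ≫ (ρ_ Q).hom := by
    apply epi_tensor w hc
    rw [← Category.assoc, ha, hD, Preadditive.sub_comp, Category.assoc, Category.assoc, w]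
    rw [← Category.assoc (p ▷ Mᘁ), ← whisker_exchange]
    simp
  have h1 : ptr D = ptr (a ≫ p) := by rw [← ha, ptr_cyc]
  rw [hap, ptr_scal, hD, ptr_sub, ptr_scal, ptr_ev, ← hy] at h1
  rw [Preadditive.comp_add, Category.comp_id, ← h1]
  abel

end

section lin

variable [Linear ℚ A]

/-- Additivity of the rank. -/
theorem rank_add (hEnd : ∀ f : 𝟙_ A ⟶ 𝟙_ A, ∃ c : ℚ, f = c • 𝟙 _) {M Q : A} {x : 𝟙_ A ⟶ M}
    {p : M ⟶ Q} (w : x ≫ p = 0) (hc : IsColimit (CokernelCofork.ofπ p w)) (hx : x ≠ 0) :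
    tr (𝟙 M) = tr (𝟙 Q) + 𝟙 _ := by
  have h := du_rank w hc
  have h2 : du x ≫ (tr (𝟙 M) - (tr (𝟙 Q) + 𝟙 _)) = 0 := by
    rw [Preadditive.comp_sub, h, sub_self]
  obtain ⟨c, hc'⟩ := hEnd (tr (𝟙 M) - (tr (𝟙 Q) + 𝟙 _))
  rw [hc', Linear.comp_smul, Category.comp_id] at h2
  rcases smul_eq_zero.mp h2 with h3 | h3
  · rw [h3, zero_smul] at hc'
    exact sub_eq_zero.mp hc'
  · exact absurd h3 (du_ne_zero hx)

/-- Additivity of the trace. -/
theorem trace_add (hEnd : ∀ f : 𝟙_ A ⟶ 𝟙_ A, ∃ c : ℚ, f = c • 𝟙 _) {M Q : A} {x : 𝟙_ A ⟶ M}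
    {p : M ⟶ Q} (w : x ≫ p = 0) (hc : IsColimit (CokernelCofork.ofπ p w)) (hx : x ≠ 0)
    {b : M ⟶ M} {c : Q ⟶ Q} (hb : x ≫ b = x) (hbc : b ≫ p = p ≫ c) :
    tr b = tr c + 𝟙 _ := by
  have hp : Epi p := by
    constructor
    intro R g k e
    exact Cofork.IsColimit.hom_ext hc e
  have h0 : x ≫ (b - 𝟙 M) = 0 := by
    rw [Preadditive.comp_sub, hb, Category.comp_id, sub_self]
  obtain ⟨v, hv⟩ := CokernelCofork.IsColimit.desc' hc (b - 𝟙 M) h0
  have hv' : p ≫ v = b - 𝟙 M := hv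
  have h1 : v ≫ p = c - 𝟙 Q := by
    rw [← cancel_epi p, ← Category.assoc, hv', Preadditive.sub_comp, Preadditive.comp_sub, hbc]
    simp
  have h2 : tr (b - 𝟙 M) = tr (c - 𝟙 Q) := by rw [← hv', tr_cyc, h1]
  rw [tr_sub, tr_sub, rank_add hEnd w hc hx] at h2
  have : tr b = tr c - tr (𝟙 Q) + (tr (𝟙 Q) + 𝟙 _) := by rw [← h2]; abel
  rw [this]; abel

end lin

end U226.AB
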