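import Mathlib

/-!
# Traces in a rigid symmetric monoidal category

The trace of an endomorphism, and a version with a parameter `Z`, together with the cyclicity
that we need.
-/

namespace U226.AB

open CategoryTheory MonoidalCategory BraidedCategory ExactPairing

universe v u

variable {A : Type u} [Category.{v} A] [MonoidalCategory A] [SymmetricCategory A]
  [RightRigidCategory A]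

/-- The trace of an endomorphism of `M`: the composite
`1 → M ⊗ Mᘁ → M ⊗ Mᘁ → Mᘁ ⊗ M → 1`. -/
noncomputable def tr {M : A} (f : M ⟶ M) : 𝟙_ A ⟶ 𝟙_ A :=
  η_ M Mᘁ ≫ f ▷ Mᘁ ≫ (β_ M Mᘁ).hom ≫ ε_ M Mᘁ

/-- The other coevaluation `1 → Mᘁ ⊗ M`. -/
noncomputable def coev (M : A) : 𝟙_ A ⟶ Mᘁ ⊗ M := η_ M Mᘁ ≫ (β_ M Mᘁ).hom

/-- The trace with a parameter: `h : M ⊗ Z ⟶ M` gives `Z ⟶ 1`. -/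
noncomputable def ptr {M Z : A} (h : M ⊗ Z ⟶ M) : Z ⟶ 𝟙_ A :=
  (λ_ Z).inv ≫ coev M ▷ Z ≫ (α_ _ _ _).hom ≫ Mᘁ ◁ h ≫ ε_ M Mᘁ

theorem tr_eq {M : A} (f : M ⟶ M) : tr f = coev M ≫ Mᘁ ◁ f ≫ ε_ M Mᘁ := by
  unfold tr coev
  rw [Category.assoc, ← Category.assoc (f ▷ Mᘁ), BraidedCategory.braiding_naturality_left]
  simp

theorem coev_comp {M Q : A} (p : M ⟶ Q) : coev M ≫ Mᘁ ◁ p = coev Q ≫ pᘁ ▷ Q := by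
  unfold coev
  rw [Category.assoc, ← BraidedCategory.braiding_naturality_left, ← Category.assoc,
    ← coevaluation_comp_rightAdjointMate, Category.assoc,
    BraidedCategory.braiding_naturality_right, Category.assoc]

theorem ptr_cyc {M Q Z : A} (p : M ⟶ Q) (a : Q ⊗ Z ⟶ M) : ptr (p ▷ Z ≫ a) = ptr (a ≫ p) := by
  unfold ptr
  have h1 : coev M ▷ Z ≫ (α_ _ _ _).hom ≫ Mᘁ ◁ (p ▷ Z) =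
      coev Q ▷ Z ≫ (α_ _ _ _).hom ≫ pᘁ ▷ (Q ⊗ Z) := by
    rw [← associator_naturality_middle, ← associator_naturality_left, ← Category.assoc,
      ← Category.assoc, ← comp_whiskerRight, ← comp_whiskerRight, coev_comp]
  calc (λ_ Z).inv ≫ coev M ▷ Z ≫ (α_ _ _ _).hom ≫ Mᘁ ◁ (p ▷ Z ≫ a) ≫ ε_ M Mᘁ
      = (λ_ Z).inv ≫ (coev M ▷ Z ≫ (α_ _ _ _).hom ≫ Mᘁ ◁ (p ▷ Z)) ≫ Mᘁ ◁ a ≫ ε_ M Mᘁ := by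
        simp
    _ = (λ_ Z).inv ≫ coev Q ▷ Z ≫ (α_ _ _ _).hom ≫ (pᘁ ▷ (Q ⊗ Z) ≫ Mᘁ ◁ a) ≫ ε_ M Mᘁ := by
        rw [h1]; simp
    _ = (λ_ Z).inv ≫ coev Q ▷ Z ≫ (α_ _ _ _).hom ≫ Qᘁ ◁ a ≫ (pᘁ ▷ M ≫ ε_ M Mᘁ) := by
        rw [← whisker_exchange]; simp
    _ = (λ_ Z).inv ≫ coev Q ▷ Z ≫ (α_ _ _ _).hom ≫ Qᘁ ◁ (a ≫ p) ≫ ε_ Q Qᘁ := by
        rw [rightAdjointMate_comp_evaluation]; simp

theorem tr_cyc {M Q : A} (p : M ⟶ Q) (w : Q ⟶ M) : tr (p ≫ w) = tr (w ≫ p) := by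
  rw [tr_eq, tr_eq]
  calc coev M ≫ Mᘁ ◁ (p ≫ w) ≫ ε_ M Mᘁ
      = (coev M ≫ Mᘁ ◁ p) ≫ Mᘁ ◁ w ≫ ε_ M Mᘁ := by simp
    _ = coev Q ≫ (pᘁ ▷ Q ≫ Mᘁ ◁ w) ≫ ε_ M Mᘁ := by rw [coev_comp]; simp
    _ = coev Q ≫ Qᘁ ◁ w ≫ (pᘁ ▷ M ≫ ε_ M Mᘁ) := by rw [← whisker_exchange]; simp
    _ = coev Q ≫ Qᘁ ◁ (w ≫ p) ≫ ε_ Q Qᘁ := by
        rw [rightAdjointMate_comp_evaluation]; simp

/-- The dual of `x : 1 ⟶ M`, as a morphism `Mᘁ ⟶ 1`. -/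
noncomputable def du {M : A} (x : 𝟙_ A ⟶ M) : Mᘁ ⟶ 𝟙_ A :=
  (ρ_ _).inv ≫ Mᘁ ◁ x ≫ ε_ M Mᘁ

/-- `m ⊗ φ ↦ φ(m)`. -/
noncomputable def ev' (M : A) : M ⊗ Mᘁ ⟶ 𝟙_ A := (β_ M Mᘁ).hom ≫ ε_ M Mᘁ

theorem zigzag (M : A) : coev M ▷ Mᘁ ≫ (α_ _ _ _).hom ≫ Mᘁ ◁ ev' M =
    (λ_ Mᘁ).hom ≫ (ρ_ Mᘁ).inv := by
  have h := @evaluation_coevaluation A _ _ Mᘁ M (exactPairing_swap M Mᘁ)
  have h1 : @coevaluation A _ _ Mᘁ M (exactPairing_swap M Mᘁ) = coev M := by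
    show η_ M Mᘁ ≫ (β_ Mᘁ M).inv = _
    unfold coev
    rw [SymmetricCategory.braiding_swap_eq_inv_braiding]
  have h2 : @evaluation A _ _ Mᘁ M (exactPairing_swap M Mᘁ) = ev' M := rfl
  rw [h1, h2] at h
  exact h

/-- The trace with parameter of `m ⊗ φ ↦ φ(m) x` is `φ ↦ φ(x)`. -/
theorem ptr_ev {M : A} (x : 𝟙_ A ⟶ M) : ptr (ev' M ≫ x) = du x := by
  unfold ptr du
  calc (λ_ Mᘁ).inv ≫ coev M ▷ Mᘁ ≫ (α_ _ _ _).hom ≫ Mᘁ ◁ (ev' M ≫ x) ≫ ε_ M Mᘁ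
      = (λ_ Mᘁ).inv ≫ (coev M ▷ Mᘁ ≫ (α_ _ _ _).hom ≫ Mᘁ ◁ ev' M) ≫ Mᘁ ◁ x ≫ ε_ M Mᘁ := by
        simp
    _ = _ := by rw [zigzag]; simp

/-- The trace with parameter of `m ⊗ z ↦ y(z) m`. -/
theorem ptr_scal {M Z : A} (y : Z ⟶ 𝟙_ A) : ptr (M ◁ y ≫ (ρ_ M).hom) = y ≫ tr (𝟙 M) := by
  unfold ptr
  rw [tr_eq]
  calc (λ_ Z).inv ≫ coev M ▷ Z ≫ (α_ _ _ _).hom ≫ Mᘁ ◁ (M ◁ y ≫ (ρ_ M).hom) ≫ ε_ M Mᘁ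
      = (λ_ Z).inv ≫ coev M ▷ Z ≫ ((α_ _ _ _).hom ≫ Mᘁ ◁ (M ◁ y)) ≫ Mᘁ ◁ (ρ_ M).hom ≫
          ε_ M Mᘁ := by simp
    _ = (λ_ Z).inv ≫ (coev M ▷ Z ≫ (Mᘁ ⊗ M) ◁ y) ≫ (α_ _ _ _).hom ≫ Mᘁ ◁ (ρ_ M).hom ≫
          ε_ M Mᘁ := by
        rw [← associator_naturality_right]; simp
    _ = (λ_ Z).inv ≫ ((𝟙_ A) ◁ y ≫ coev M ▷ (𝟙_ A)) ≫ (α_ _ _ _).hom ≫ Mᘁ ◁ (ρ_ M).hom ≫
          ε_ M Mᘁ := by rw [whisker_exchange]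
    _ = y ≫ coev M ≫ Mᘁ ◁ 𝟙 M ≫ ε_ M Mᘁ := by
        simp only [Category.assoc, whiskerLeft_id, Category.id_comp]
        rw [← Category.assoc (λ_ Z).inv, ← leftUnitor_inv_naturality]
        simp only [Category.assoc, whiskerRight_tensor, id_whiskerLeft]
        simp [unitors_inv_equal]

end U226.AB
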