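import Pool.Agent.U226.AB.Frob

/-!
# Consequences of normality of the morphisms out of the unit
-/

namespace U226.AB

open CategoryTheory MonoidalCategory BraidedCategory ExactPairing CategoryTheory.Limits

universe v u

/-- Every nonzero morphism out of the unit object has a cokernel and is a kernel of it. -/
def UnitNormal (A : Type u) [Category.{v} A] [Preadditive A] [MonoidalCategory A] : Prop :=
  ∀ (M : A) (x : 𝟙_ A ⟶ M), x ≠ 0 → ∃ (Q : A) (p : M ⟶ Q) (w : x ≫ p = 0),
    Nonempty (IsColimit (CokernelCofork.ofπ p w)) ∧ Nonempty (IsLimit (KernelFork.ofι x w))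

variable {A : Type u} [Category.{v} A] [Preadditive A] [Linear ℚ A] [MonoidalCategory A]
  [MonoidalPreadditive A] [MonoidalLinear ℚ A] [SymmetricCategory A] [RightRigidCategory A]
  {K : Type*} [Field K] [CharZero K]

namespace FrobeniusData

variable (D : FrobeniusData A K)

/-- Passing to the cokernel of a nonzero morphism out of the unit lowers the multiplicity of the
eigenvalue `1` by one. -/
theorem mult_step (hu : UnitRat A) {M Q : A} {x : 𝟙_ A ⟶ M} {p : M ⟶ Q} (w : x ≫ p = 0)
    (hc : IsColimit (CokernelCofork.ofπ p w)) (hx : x ≠ 0) (α : K) :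
    D.mult M α = D.mult Q α + (Finsupp.single (1 : K) 1 : K →₀ ℕ) α := by
  have h : ∀ n : ℕ, tr (iter (D.frob M) n) = tr (iter (D.frob Q) n) + 𝟙 _ := by
    intro n
    apply trace_add hu.scalar w hc hx
    · rw [← D.iter_comp x n, D.iter_unit, Category.id_comp]
    · exact D.iter_comp p n
  have key : D.sm M - D.sm Q - Finsupp.single 1 1 = 0 := by
    apply pow_indep
    intro n
    obtain ⟨a, ha, ha'⟩ := D.trace_formula M n
    obtain ⟨b, hb, hb'⟩ := D.trace_formula Q n
    rw [sum_eq] at ha' hb'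
    have habc : a = b + 1 := by
      have h1 := h n
      have h3 : (𝟙 (𝟙_ A) : 𝟙_ A ⟶ 𝟙_ A) = (1 : ℚ) • 𝟙 (𝟙_ A) := (one_smul _ _).symm
      rw [ha, hb] at h1
      nth_rewrite 3 [h3] at h1
      rw [← add_smul, ← sub_eq_zero, ← sub_smul] at h1
      rcases smul_eq_zero.mp h1 with h2 | h2
      · linarith
      · exact absurd h2 hu.one_ne_zero
    rw [Finsupp.sum_sub_index (by intros; ring), Finsupp.sum_sub_index (by intros; ring),
      ← ha', ← hb', habc, Finsupp.sum_single_index (by ring)]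
    push_cast
    ring
  have h1 := DFunLike.congr_fun key α
  simp only [Finsupp.coe_sub, Pi.sub_apply, sm_apply, Finsupp.coe_zero, Pi.zero_apply] at h1
  by_cases hα : α = 1
  · subst hα
    rw [Finsupp.single_eq_same, D.sign_one] at h1
    rw [Finsupp.single_eq_same]
    have : (D.mult M 1 : K) = ((D.mult Q 1 + 1 : ℕ) : K) := by
      push_cast
      simp only [Units.val_one, Int.cast_one] at h1
      linear_combination h1
    exact_mod_cast this
  · rw [Finsupp.single_eq_of_ne (fun h => hα h)] at h1 ⊢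
    have h2 : (((D.sign α : ℤˣ) : ℤ) : K) * ((D.mult M α : K) - (D.mult Q α : K)) = 0 := by
      linear_combination h1
    rcases mul_eq_zero.mp h2 with h3 | h3
    · exact absurd h3 (D.sign_ne α)
    · have : (D.mult M α : K) = ((D.mult Q α + 0 : ℕ) : K) := by
        push_cast
        linear_combination h3
      exact_mod_cast this

/-- The main bound: the space of morphisms from the unit to `M` has dimension at most the
multiplicity of the eigenvalue `1`. -/
theorem rank_le (hu : UnitRat A) (hN : UnitNormal A) (k : ℕ) : ∀ M : A, D.mult M 1 = k →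
    Module.rank ℚ (𝟙_ A ⟶ M) ≤ k := by
  induction k with
  | zero =>
    intro M hM
    have : Subsingleton (𝟙_ A ⟶ M) := by
      refine subsingleton_of_forall_eq 0 fun x => ?_
      by_contra hx
      obtain ⟨Q, p, w, ⟨hc⟩, _⟩ := hN M x hx
      have := D.mult_step hu w hc hx 1
      rw [Finsupp.single_eq_same, hM] at this
      omega
    simp [rank_subsingleton']
  | succ k ih =>
    intro M hM
    by_cases h0 : ∀ x : 𝟙_ A ⟶ M, x = 0
    · have : Subsingleton (𝟙_ A ⟶ M) := subsingleton_of_forall_eq 0 h0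
      simp [rank_subsingleton']
    · push Not at h0
      obtain ⟨x, hx⟩ := h0
      obtain ⟨Q, p, w, ⟨hc⟩, ⟨hk⟩⟩ := hN M x hx
      have h1 := D.mult_step hu w hc hx 1
      rw [Finsupp.single_eq_same, hM] at h1
      have hQ : D.mult Q 1 = k := by omega
      have h2 := ih Q hQ
      let φ : (𝟙_ A ⟶ M) →ₗ[ℚ] (𝟙_ A ⟶ Q) := Linear.rightComp ℚ (𝟙_ A) p
      have hker : LinearMap.ker φ ≤ Submodule.span ℚ {x} := by
        intro f hf
        have hf' : f ≫ p = 0 := hf
        obtain ⟨g, hg⟩ := KernelFork.IsLimit.lift' hk f hf'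
        have hg' : g ≫ x = f := hg
        obtain ⟨c, hc'⟩ := hu.scalar g
        rw [Submodule.mem_span_singleton]
        exact ⟨c, by rw [← hg', hc', Linear.smul_comp, Category.id_comp]⟩
      have h3 : Module.rank ℚ (LinearMap.ker φ) ≤ 1 :=
        (Submodule.rank_mono hker).trans ((rank_span_le _).trans (by simp))
      have h4 : Module.rank ℚ (LinearMap.range φ) ≤ k := (Submodule.rank_le _).trans h2
      rw [← LinearMap.rank_range_add_rank_ker φ]
      push_cast
      exact add_le_add h4 h3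

include D in
theorem finite (hu : UnitRat A) (hN : UnitNormal A) (M : A) :
    Module.Finite ℚ (𝟙_ A ⟶ M) :=
  Module.rank_lt_aleph0_iff.mp
    ((D.rank_le hu hN _ M rfl).trans_lt (Cardinal.natCast_lt_aleph0))

theorem finrank_le (hu : UnitRat A) (hN : UnitNormal A) (M : A) :
    Module.finrank ℚ (𝟙_ A ⟶ M) ≤ D.mult M 1 :=
  Module.finrank_le_of_rank_le (D.rank_le hu hN _ M rfl)

/-- Morphisms `M ⟶ N` embed in the morphisms `1 ⟶ Mᘁ ⊗ N`. -/
noncomputable def hat (M N : A) : (M ⟶ N) →ₗ[ℚ] (𝟙_ A ⟶ Mᘁ ⊗ N) where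
  toFun f := coev M ≫ Mᘁ ◁ f
  map_add' f g := by simp [MonoidalPreadditive.whiskerLeft_add]
  map_smul' c f := by simp

theorem hat_injective (M N : A) : Function.Injective (hat M N) := by
  rw [injective_iff_map_eq_zero]
  intro f hf
  have hf' : coev M ≫ Mᘁ ◁ f = 0 := hf
  -- apply `m ↦ ev'(m ⊗ -)`
  have key : (ρ_ M).inv ≫ M ◁ (coev M ≫ Mᘁ ◁ f) ≫ (α_ _ _ _).inv ≫ ev' M ▷ N ≫ (λ_ N).hom
      = f := by
    have h := @coevaluation_evaluation A _ _ Mᘁ M (exactPairing_swap M Mᘁ)
    have h1 : @coevaluation A _ _ Mᘁ M (exactPairing_swap M Mᘁ) = coev M := by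
      show η_ M Mᘁ ≫ (β_ Mᘁ M).inv = _
      unfold coev
      rw [SymmetricCategory.braiding_swap_eq_inv_braiding]
    have h2 : @evaluation A _ _ Mᘁ M (exactPairing_swap M Mᘁ) = ev' M := rfl
    rw [h1, h2] at h
    calc (ρ_ M).inv ≫ M ◁ (coev M ≫ Mᘁ ◁ f) ≫ (α_ _ _ _).inv ≫ ev' M ▷ N ≫ (λ_ N).hom
        = (ρ_ M).inv ≫ M ◁ coev M ≫ (M ◁ (Mᘁ ◁ f) ≫ (α_ _ _ _).inv) ≫ ev' M ▷ N ≫
            (λ_ N).hom := by simp
      _ = (ρ_ M).inv ≫ M ◁ coev M ≫ (α_ _ _ _).inv ≫ ((M ⊗ Mᘁ) ◁ f ≫ ev' M ▷ N) ≫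
            (λ_ N).hom := by rw [associator_inv_naturality_right]; simp
      _ = (ρ_ M).inv ≫ (M ◁ coev M ≫ (α_ _ _ _).inv ≫ ev' M ▷ M) ≫ (𝟙_ A) ◁ f ≫
            (λ_ N).hom := by rw [whisker_exchange]; simp
      _ = f := by rw [h]; simp
  rw [← key, hf']
  simp

theorem finrank_hom_le (hu : UnitRat A) (hN : UnitNormal A) (M N : A) :
    Module.Finite ℚ (M ⟶ N) ∧
    Module.finrank ℚ (M ⟶ N) ≤ (D.mult M).sum fun α m => m * D.mult N α := by
  have hinj := hat_injective M N
  have hf := D.finite hu hN (Mᘁ ⊗ N)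
  refine ⟨Module.Finite.of_injective (hat M N) hinj, ?_⟩
  rw [← D.mult_hom]
  exact (LinearMap.finrank_le_finrank_of_injective hinj).trans (D.finrank_le hu hN _)

/-- There are no phantom objects. -/
theorem isZero (hu : UnitRat A) (hN : UnitNormal A) {M : A} (h : D.mult M = 0) : IsZero M := by
  have h1 := (D.finrank_hom_le hu hN M M)
  have h2 := h1.1
  have h3 := h1.2
  rw [h, Finsupp.sum_zero_index] at h3
  have h4 : Subsingleton (M ⟶ M) := Module.finrank_zero_iff.mp (Nat.le_zero.mp h3)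
  rw [IsZero.iff_id_eq_zero]
  exact Subsingleton.elim _ _

end FrobeniusData

end U226.AB
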